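import Pool.Agent.Q145.HC.Stm
import Pool.Agent.W66.LF

set_option autoImplicit false

/-! # Project HC (helper145), job KTL: the decomposition of the smoothed sum of the Liouville function -/

open Complex Filter Topology Set MeasureTheory Metric
open scoped Real

namespace Pool.Agent.Q145.HC

open Pool.Agent.W66 Pool.Agent.W66L

/-- the Liouville function as an arithmetic function -/
noncomputable def lmA : ArithmeticFunction ℝ :=
  ((ArithmeticFunction.liouville : ArithmeticFunction ℤ) : ArithmeticFunction ℝ)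

lemma lmA_apply {n : ℕ} (hn : n ≠ 0) : lmA n = lm n := by
  unfold lmA lm
  rw [ArithmeticFunction.intCoe_apply, ArithmeticFunction.liouville_apply hn]
  push_cast
  rfl

/-- `λ * ζ` -/
noncomputable def lz : ArithmeticFunction ℝ :=
  lmA * ((ArithmeticFunction.zeta : ArithmeticFunction ℕ) : ArithmeticFunction ℝ)

lemma lm_identity (w : ℕ) : lmA = muw w * lz + lmA * aw w := by
  unfold lz aw
  ring

lemma lz_mult : lz.IsMultiplicative :=
  (ArithmeticFunction.isMultiplicative_liouville.intCast).mul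
    (ArithmeticFunction.isMultiplicative_zeta.natCast)

lemma lz_pp {p k : ℕ} (hp : p.Prime) : lz (p ^ k) = if Even (k + 1) then 0 else 1 := by
  unfold lz
  rw [ArithmeticFunction.coe_mul_zeta_apply, Nat.sum_divisors_prime_pow hp]
  have h1 : ∀ i ∈ Finset.range (k + 1), lmA (p ^ i) = (-1 : ℝ) ^ i := by
    intro i _
    rw [lmA_apply (pow_ne_zero _ hp.ne_zero)]
    unfold lm
    rw [ArithmeticFunction.cardFactors_apply_prime_pow hp]
  rw [Finset.sum_congr rfl h1, neg_one_geom_sum]

lemma lz_abs (n : ℕ) : |lz n| ≤ 1 := by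
  rcases eq_or_ne n 0 with rfl | hn
  · simp
  · rw [ArithmeticFunction.IsMultiplicative.multiplicative_factorization lz lz_mult hn]
    unfold Finsupp.prod
    rw [Finset.abs_prod]
    refine Finset.prod_le_one (fun _ _ => abs_nonneg _) fun p hp => ?_
    show |lz (p ^ n.factorization p)| ≤ 1
    rw [lz_pp (Nat.prime_of_mem_primeFactors hp)]
    split_ifs <;> simp

lemma lz_zero {n : ℕ} (hn : n ≠ 0) (h : ¬ IsSquare n) : lz n = 0 := by
  rw [ArithmeticFunction.IsMultiplicative.multiplicative_factorization lz lz_mult hn]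
  obtain ⟨a, b, hab, ha⟩ := Nat.sq_mul_squarefree n
  have hb0 : b ≠ 0 := by
    rintro rfl
    apply hn
    rw [← hab]
    simp
  have ha0 : a ≠ 0 := ha.ne_zero
  have ha1 : a ≠ 1 := by
    rintro rfl
    apply h
    rw [← hab, mul_one, sq]
    exact ⟨b, rfl⟩
  obtain ⟨p, hp, hpa⟩ := Nat.exists_prime_and_dvd ha1
  have hpn : p ∣ n := by
    rw [← hab]
    exact Dvd.dvd.mul_left hpa _
  have hfa : a.factorization p = 1 := by
    have h1 : a.factorization p ≤ 1 := (Nat.squarefree_iff_factorization_le_one ha0).1 ha p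
    have h2 : 0 < a.factorization p := hp.factorization_pos_of_dvd ha0 hpa
    omega
  have hfn : n.factorization p = 2 * b.factorization p + 1 := by
    rw [← hab, Nat.factorization_mul (pow_ne_zero _ hb0) ha0, Nat.factorization_pow]
    simp only [Finsupp.add_apply, Finsupp.smul_apply, smul_eq_mul, hfa]
  unfold Finsupp.prod
  apply Finset.prod_eq_zero (i := p)
  · rw [Nat.support_factorization, Nat.mem_primeFactors]
    exact ⟨hp, hpn, hn⟩
  · show lz (p ^ n.factorization p) = 0
    rw [lz_pp hp, hfn, if_pos]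
    exact ⟨b.factorization p + 1, by ring⟩

/-- the sum over the squares near `e ^ x` -/
lemma sq_sum {h : ℝ} (hh : 0 < h) (hh1 : h ≤ 1) (x : ℝ) (N : ℕ) :
    ∑ m ∈ Finset.Ioc 0 N, |lz m| / m * tri h (x - Real.log m) ≤
      Real.exp (3 / 2) * Real.exp (-(x / 2)) / h := by
  classical
  set K := ⌊Real.exp ((x + h) / 2)⌋₊ with hK
  set S := (Finset.Ioc 0 N).filter (fun m : ℕ => IsSquare m ∧ |x - Real.log m| < h) with hS
  have h1 : ∀ m ∈ Finset.Ioc 0 N, |lz m| / m * tri h (x - Real.log m) ≤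
      if IsSquare m ∧ |x - Real.log m| < h then Real.exp (-(x - h)) * (1 / h) else 0 := by
    intro m hm
    rw [Finset.mem_Ioc] at hm
    have hm0 : (0 : ℝ) < m := by exact_mod_cast hm.1
    split_ifs with hc
    · have h2 : 1 / (m : ℝ) ≤ Real.exp (-(x - h)) := by
        rw [Real.exp_neg, one_div]
        apply inv_anti₀ (Real.exp_pos _)
        rw [← Real.le_log_iff_exp_le hm0]
        have := (abs_lt.1 hc.2).2
        linarith
      apply mul_le_mul _ (tri_le hh _) (tri_nonneg hh _) (Real.exp_pos _).le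
      refine le_trans ?_ h2
      exact div_le_div_of_nonneg_right (lz_abs m) hm0.le
    · rw [not_and_or] at hc
      rcases hc with hc | hc
      · rw [lz_zero (by omega) hc, abs_zero, zero_div, zero_mul]
      · rw [tri_zero_of hh (not_lt.1 hc), mul_zero]
  refine (Finset.sum_le_sum h1).trans ?_
  rw [← Finset.sum_filter, Finset.sum_const, nsmul_eq_mul]
  have h2 : S ⊆ (Finset.Icc 1 K).image (fun a => a * a) := by
    intro m hm
    rw [hS, Finset.mem_filter, Finset.mem_Ioc] at hm
    obtain ⟨⟨hm0, -⟩, ⟨r, hr⟩, hx⟩ := hm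
    rw [Finset.mem_image]
    have hr0 : r ≠ 0 := by
      rintro rfl
      omega
    have hrp : (0 : ℝ) < r := by exact_mod_cast Nat.pos_of_ne_zero hr0
    refine ⟨r, ?_, hr.symm⟩
    rw [Finset.mem_Icc]
    refine ⟨by omega, Nat.le_floor ?_⟩
    rw [← Real.log_le_iff_le_exp hrp]
    have h3 : Real.log m = 2 * Real.log r := by
      rw [hr]
      push_cast
      rw [Real.log_mul hrp.ne' hrp.ne']
      ring
    rw [h3] at hx
    have := (abs_lt.1 hx).1
    linarith
  have h3 : (S.card : ℝ) ≤ Real.exp ((x + h) / 2) := by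
    have h4 : S.card ≤ K := by
      calc S.card ≤ ((Finset.Icc 1 K).image (fun a => a * a)).card := Finset.card_le_card h2
        _ ≤ (Finset.Icc 1 K).card := Finset.card_image_le
        _ = K := by simp
    calc (S.card : ℝ) ≤ K := by exact_mod_cast h4
      _ ≤ _ := Nat.floor_le (Real.exp_pos _).le
  calc (S.card : ℝ) * (Real.exp (-(x - h)) * (1 / h)) ≤
        Real.exp ((x + h) / 2) * (Real.exp (-(x - h)) * (1 / h)) := by gcongr
    _ = Real.exp ((x + h) / 2 + -(x - h)) / h := by rw [Real.exp_add]; ring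
    _ ≤ Real.exp (3 / 2 + -(x / 2)) / h := by
        apply div_le_div_of_nonneg_right _ hh.le
        apply Real.exp_le_exp.2
        linarith
    _ = _ := by rw [Real.exp_add]

lemma sqrt_sum (w : ℕ) : ∑ d ∈ Finset.Ioc 0 w, 1 / √(d : ℝ) ≤ 2 * √(w : ℝ) := by
  induction w with
  | zero => simp
  | succ w ih =>
    rw [Finset.sum_Ioc_succ_top (by omega)]
    have h1 : 0 < √((w + 1 : ℕ) : ℝ) := Real.sqrt_pos.2 (by positivity)
    have h2 : √((w + 1 : ℕ) : ℝ) ^ 2 = w + 1 := by
      rw [Real.sq_sqrt (by positivity)]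
      push_cast
      ring
    have h3 : √(w : ℝ) ^ 2 = w := Real.sq_sqrt (by positivity)
    have h4 : 0 ≤ √(w : ℝ) := Real.sqrt_nonneg _
    have h5 : 1 / √((w + 1 : ℕ) : ℝ) ≤ 2 * √((w + 1 : ℕ) : ℝ) - 2 * √(w : ℝ) := by
      rw [div_le_iff₀ h1]
      nlinarith [sq_nonneg (√((w + 1 : ℕ) : ℝ) - √(w : ℝ))]
    linarith

/-- sums over `k` with `log k < u0` -/
lemma inv_sum_le (N : ℕ) {y : ℝ} (hy : 0 ≤ y) :
    ∑ m ∈ (Finset.Ioc 0 N).filter (fun m : ℕ => Real.log m < y), 1 / (m : ℝ) ≤ 1 + y := by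
  have h1 : (Finset.Ioc 0 N).filter (fun m : ℕ => Real.log m < y) ⊆ Finset.Icc 1 ⌊Real.exp y⌋₊ := by
    intro m hm
    rw [Finset.mem_filter, Finset.mem_Ioc] at hm
    have hm0 : (0 : ℝ) < m := by exact_mod_cast hm.1.1
    rw [Finset.mem_Icc]
    refine ⟨hm.1.1, Nat.le_floor ?_⟩
    rw [← Real.log_le_iff_le_exp hm0]
    exact hm.2.le
  have h2 := harmonic_floor_le_one_add_log (Real.exp y) (Real.one_le_exp hy)
  rw [harmonic_eq_sum_Icc, Real.log_exp] at h2
  push_cast at h2
  refine (Finset.sum_le_sum_of_subset_of_nonneg h1 fun _ _ _ => by positivity).trans ?_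
  simp only [one_div]
  exact h2

/-- the decomposition of the type II sum -/
theorem typeIIL {Q : ℕ} (χ : DirichletCharacter ℂ Q) {h z : ℝ} (hh : 0 < h) (N u0 U : ℕ) (hu : u0 ≤ U)
    (hz : z + h ≤ U) (L : Finset ℕ) (hL : ∀ l ∈ L, 0 < l) (c : ℕ → ℂ) :
    ∑ m ∈ Finset.Ioc 0 N, (χ m * ((lm m / m : ℝ) : ℂ)) * ggC h L c (z - Real.log m) =
      ∑ m ∈ Finset.Ioc 0 N, (χ m * ((lm m / m * (1 - rp u0 (Real.log m)) : ℝ) : ℂ)) *
        ggC h L c (z - Real.log m) +
      ∑ u ∈ Finset.Icc u0 U, FG (xl χ) u h N L c z := by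
  unfold FG
  rw [Finset.sum_comm, ← Finset.sum_add_distrib]
  refine Finset.sum_congr rfl fun m _ => ?_
  have h3 : ∑ u ∈ Finset.Icc u0 U, (xl χ m * ((1 / m * hat (u - Real.log m) : ℝ) : ℂ)) *
      ggC h L c (z - Real.log m) =
      (χ m * ((lm m / m * (∑ u ∈ Finset.Icc u0 U, hat (u - Real.log m)) : ℝ) : ℂ)) *
        ggC h L c (z - Real.log m) := by
    rw [← Finset.sum_mul, ← Finset.mul_sum, ← Complex.ofReal_sum, ← Finset.mul_sum]
    unfold xl
    push_cast
    ring
  rw [h3]
  rcases le_or_gt (Real.log m) U with h4 | h4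
  · rw [hat_partition_rp u0 U hu h4, ← add_mul, ← mul_add, ← Complex.ofReal_add]
    congr 3
    ring_nf
  · rw [ggC_zero hh L c hL (by linarith)]
    ring

theorem t_KTL : S_KTL := by
  intro Q _ χ h z Z ε w N u0 U hh hh1 hw hz1 hz2 hu0 hu hU hN hZ hgg
  have hw0 : (0 : ℝ) < w := by exact_mod_cast hw
  have hlw : 0 ≤ Real.log w := Real.log_nonneg (by exact_mod_cast hw)
  have hu0' : (1 : ℝ) ≤ u0 := by exact_mod_cast hu0
  have hzN : Real.exp (z + h) ≤ N := by
    refine le_trans (Real.exp_le_exp.2 ?_) hN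
    linarith
  have hN0 : (0 : ℝ) < N := lt_of_lt_of_le (Real.exp_pos _) hN
  have hwN : w ≤ N := by
    have h1 : (w : ℝ) ≤ N := by
      refine le_trans ?_ hN
      rw [← Real.log_le_iff_le_exp hw0]
      linarith
    exact_mod_cast h1
  have hε0 : 0 ≤ ε := (norm_nonneg _).trans (hgg z (by linarith) le_rfl)
  set L := Finset.Ioc 0 N with hL
  have hLpos : ∀ l ∈ L, 0 < l := fun l hl => (Finset.mem_Ioc.1 hl).1
  set c : ℕ → ℂ := fun l => χ l * ((aw w l / l : ℝ) : ℂ) with hc
  -- the identity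
  have hT : TG (xl χ) h N z = ∑ d ∈ L, (χ d * ((muw w d / d : ℝ) : ℂ)) * ∑ m ∈ L,
      (χ m * ((lz m / m : ℝ) : ℂ)) * triC h (z - Real.log d - Real.log m) +
      ∑ m ∈ L, (χ m * ((lm m / m : ℝ) : ℂ)) * ggC h L c (z - Real.log m) := by
    have h1 : TG (xl χ) h N z = ∑ n ∈ L, χ n * (((muw w * lz) n / n : ℝ) : ℂ) *
          triC h (z - Real.log n) +
        ∑ n ∈ L, χ n * (((lmA * aw w) n / n : ℝ) : ℂ) * triC h (z - Real.log n) := by
      unfold TG
      rw [← Finset.sum_add_distrib]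
      refine Finset.sum_congr rfl fun n hn => ?_
      have hn0 : n ≠ 0 := (hLpos n hn).ne'
      unfold xl
      rw [← lmA_apply hn0]
      conv_lhs => rw [lm_identity w]
      rw [ArithmeticFunction.add_apply]
      push_cast
      ring
    rw [h1, conv_sumX χ _ _ h z hh N hzN, conv_sumX χ _ _ h z hh N hzN]
    congr 1
    refine Finset.sum_congr rfl fun m hm => ?_
    rw [lmA_apply (hLpos m hm).ne']
    rfl
  rw [typeIIL χ hh N u0 U hu (by linarith) L hLpos c] at hT
  -- type I
  have hI : ‖∑ d ∈ L, (χ d * ((muw w d / d : ℝ) : ℂ)) * ∑ m ∈ L,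
      (χ m * ((lz m / m : ℝ) : ℂ)) * triC h (z - Real.log d - Real.log m)‖ ≤
      9 * √(w : ℝ) * Real.exp (-(Z / 2)) / h := by
    rw [muw_sumC w N hwN]
    refine (norm_sum_le _ _).trans ?_
    have h3 : ∀ d ∈ Finset.Ioc 0 w,
        ‖(χ d * ((((ArithmeticFunction.moebius d : ℤ) : ℝ) / d : ℝ) : ℂ)) * ∑ m ∈ L,
          (χ m * ((lz m / m : ℝ) : ℂ)) * triC h (z - Real.log d - Real.log m)‖ ≤
        1 / √(d : ℝ) * (Real.exp (3 / 2) * Real.exp (-(z / 2)) / h) := by
      intro d hd
      rw [Finset.mem_Ioc] at hd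
      have hd0 : (0 : ℝ) < d := by exact_mod_cast hd.1
      have h4 : ‖∑ m ∈ L, (χ m * ((lz m / m : ℝ) : ℂ)) * triC h (z - Real.log d - Real.log m)‖ ≤
          Real.exp (3 / 2) * Real.exp (-((z - Real.log d) / 2)) / h := by
        refine le_trans (norm_sum_le _ _) (le_trans (Finset.sum_le_sum ?_)
          (sq_sum hh hh1 (z - Real.log d) N))
        intro m hm
        have hm0 : (0 : ℝ) < m := by exact_mod_cast hLpos m hm
        unfold triC
        rw [norm_mul, norm_mul, Complex.norm_real, Complex.norm_real,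
          Real.norm_of_nonneg (tri_nonneg hh _), Real.norm_eq_abs, abs_div, abs_of_pos hm0]
        apply mul_le_mul_of_nonneg_right _ (tri_nonneg hh _)
        calc ‖χ (m : ZMod Q)‖ * (|lz m| / (m : ℝ)) ≤ 1 * (|lz m| / (m : ℝ)) :=
              mul_le_mul_of_nonneg_right (χ.norm_le_one _) (by positivity)
          _ = _ := one_mul _
      have h5 : Real.exp (-((z - Real.log d) / 2)) = √(d : ℝ) * Real.exp (-(z / 2)) := by
        have h6 : √(d : ℝ) = Real.exp (Real.log d / 2) := by
          rw [Real.sqrt_eq_rpow, Real.rpow_def_of_pos hd0]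
          congr 1
          ring
        rw [h6, ← Real.exp_add]
        congr 1
        ring
      rw [h5] at h4
      rw [norm_mul, norm_mul, Complex.norm_real, Real.norm_eq_abs, abs_div, abs_of_pos hd0]
      have h7 := mu_abs d
      have h8 := χ.norm_le_one (d : ZMod Q)
      have hsd : 0 < √(d : ℝ) := Real.sqrt_pos.2 hd0
      calc _ ≤ (1 * (1 / (d : ℝ))) * (Real.exp (3 / 2) * (√(d : ℝ) * Real.exp (-(z / 2))) / h) := by
            gcongr
        _ = (√(d : ℝ) / d) * (Real.exp (3 / 2) * Real.exp (-(z / 2)) / h) := by ring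
        _ = _ := by
            congr 1
            rw [Real.sqrt_div_self', one_div]
    refine (Finset.sum_le_sum h3).trans ?_
    rw [← Finset.sum_mul]
    have h4 : Real.exp (3 / 2) ≤ 9 / 2 := by
      have h5 : Real.exp (3 / 2) ^ 2 = Real.exp 1 ^ 3 := by
        rw [← Real.exp_nat_mul, ← Real.exp_nat_mul]
        norm_num
      have h6 : Real.exp 1 ^ 3 ≤ 2.7182818286 ^ 3 := by
        apply pow_le_pow_left₀ (Real.exp_pos _).le
        exact Real.exp_one_lt_d9.le
      have h7 : Real.exp (3 / 2) ^ 2 ≤ (9 / 2) ^ 2 := by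
        rw [h5]
        refine h6.trans ?_
        norm_num
      exact le_of_sq_le_sq h7 (by norm_num)
    have h5 : Real.exp (-(z / 2)) ≤ Real.exp (-(Z / 2)) := Real.exp_le_exp.2 (by linarith)
    calc (∑ d ∈ Finset.Ioc 0 w, 1 / √(d : ℝ)) * (Real.exp (3 / 2) * Real.exp (-(z / 2)) / h) ≤
          (2 * √(w : ℝ)) * (9 / 2 * Real.exp (-(Z / 2)) / h) := by
          apply mul_le_mul (sqrt_sum w) _ (by positivity) (by positivity)
          gcongr
      _ = _ := by ring
  -- the first part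
  have hP1 : ‖∑ m ∈ L, (χ m * ((lm m / m * (1 - rp u0 (Real.log m)) : ℝ) : ℂ)) *
        ggC h L c (z - Real.log m)‖ ≤ (1 + u0) * ε := by
    refine (norm_sum_le _ _).trans ?_
    have h1 : ∀ m ∈ L, ‖(χ m * ((lm m / m * (1 - rp u0 (Real.log m)) : ℝ) : ℂ)) *
        ggC h L c (z - Real.log m)‖ ≤
        if Real.log m < u0 then 1 / (m : ℝ) * ε else 0 := by
      intro m hm
      have hm0 := hLpos m hm
      have hmr : (0 : ℝ) < m := by exact_mod_cast hm0
      have h2 : |lm m / (m : ℝ)| = 1 / m := by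
        unfold lm
        rw [abs_div, abs_pow, abs_neg, abs_one, one_pow, abs_of_pos hmr]
      have h5 : 0 ≤ Real.log m := Real.log_nonneg (by exact_mod_cast hm0)
      split_ifs with h3
      · rw [norm_mul, norm_mul, Complex.norm_real, Real.norm_eq_abs, abs_mul, h2,
          abs_of_nonneg (by linarith [rp_le_one (u0 : ℝ) (Real.log m)])]
        have h4 := hgg (z - Real.log m) (by linarith) (by linarith)
        have h6 := χ.norm_le_one (m : ZMod Q)
        have h7 := rp_nonneg (u0 : ℝ) (Real.log m)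
        have h8 := rp_le_one (u0 : ℝ) (Real.log m)
        calc _ ≤ 1 * (1 / (m : ℝ) * 1) * ε := by
              apply mul_le_mul _ h4 (norm_nonneg _) (by positivity)
              apply mul_le_mul h6 _ (mul_nonneg (by positivity) (by linarith)) zero_le_one
              exact mul_le_mul_of_nonneg_left (by linarith) (by positivity)
          _ = _ := by ring
      · rw [rp_one (not_lt.1 h3)]
        simp
    refine (Finset.sum_le_sum h1).trans ?_
    rw [← Finset.sum_filter, ← Finset.sum_mul]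
    apply mul_le_mul_of_nonneg_right _ hε0
    exact inv_sum_le N (by positivity)
  rw [hT]
  set I1 := ∑ d ∈ L, (χ d * ((muw w d / d : ℝ) : ℂ)) * ∑ m ∈ L,
      (χ m * ((lz m / m : ℝ) : ℂ)) * triC h (z - Real.log d - Real.log m) with hI1
  set P1 := ∑ m ∈ L, (χ m * ((lm m / m * (1 - rp u0 (Real.log m)) : ℝ) : ℂ)) *
        ggC h L c (z - Real.log m) with hP1'
  set F1 := ∑ u ∈ Finset.Icc u0 U, FG (xl χ) u h N L c z with hF1
  have e : I1 + (P1 + F1) - F1 = I1 + P1 := by ring
  rw [e]
  exact (norm_add_le _ _).trans (add_le_add hI hP1)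

end Pool.Agent.Q145.HC
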