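import Pool.Agent.Q145.HC.Stm
import Pool.Agent.W66.LG

set_option autoImplicit false

/-! # Project HC (helper145), job MBL: uniform bound of the transform for the Liouville function -/

open Complex Filter Topology Set MeasureTheory Metric
open scoped Real FourierTransform

namespace Pool.Agent.Q145.HC

open Pool.Agent.W66 Pool.Agent.W66L

theorem xl_le {Q : ℕ} (χ : DirichletCharacter ℂ Q) (n : ℕ) : ‖xl χ n‖ ≤ 1 := by
  unfold xl lm
  rw [norm_mul, Complex.norm_real, Real.norm_eq_abs, abs_pow, abs_neg, abs_one, one_pow, mul_one]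
  exact χ.norm_le_one _

theorem PG_triv {a : ℕ → ℂ} (ha1 : ∀ n, ‖a n‖ ≤ 1) {u : ℝ} (hu : 1 ≤ u) (ξ₀ : ℝ) :
    ‖PG a u ξ₀‖ ≤ u + 2 := by
  set N := ⌊Real.exp (u + 1)⌋₊ with hN
  unfold PG
  rw [tsum_eq_sum (s := Finset.Icc 1 N)]
  · refine (norm_sum_le _ _).trans ?_
    have h1 : ∀ n ∈ Finset.Icc 1 N,
        ‖LSeries.term a ⟨1, ξ₀⟩ n * ((hat (u - Real.log n) : ℝ) : ℂ)‖ ≤ ((n : ℝ))⁻¹ := by
      intro n hn
      rw [Finset.mem_Icc] at hn
      have hn0 : n ≠ 0 := by omega
      rw [norm_mul, LSeries.norm_term_eq, if_neg hn0, Complex.norm_real,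
        Real.norm_of_nonneg (hat_nonneg _)]
      simp only [Real.rpow_one]
      calc ‖a n‖ / (n : ℝ) * hat (u - Real.log n) ≤ 1 / (n : ℝ) * 1 := by
            apply mul_le_mul _ (hat_le_one _) (hat_nonneg _) (by positivity)
            exact div_le_div_of_nonneg_right (ha1 n) (Nat.cast_nonneg n)
        _ = _ := by rw [mul_one, one_div]
    refine (Finset.sum_le_sum h1).trans ?_
    have h2 := harmonic_floor_le_one_add_log (Real.exp (u + 1)) (Real.one_le_exp (by linarith))
    rw [harmonic_eq_sum_Icc, Real.log_exp, ← hN] at h2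
    push_cast at h2
    linarith
  · intro n hn
    rcases eq_or_ne n 0 with rfl | hn0
    · simp
    · have h1 : N < n := by
        rw [Finset.mem_Icc] at hn
        omega
      have hnpos : (0 : ℝ) < n := by exact_mod_cast Nat.pos_of_ne_zero hn0
      have h2 : Real.exp (u + 1) < n := (Nat.floor_lt (Real.exp_pos _).le).1 h1
      have h3 : u + 1 < Real.log n := (Real.lt_log_iff_exp_lt hnpos).2 h2
      rw [hat_zero_of, Complex.ofReal_zero, mul_zero]
      rw [abs_of_nonpos (by linarith)]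
      linarith

theorem t_MBL : S_MBL := by
  intro hGEX hPLB D
  obtain ⟨C1, hC1, hG⟩ := hGEX
  obtain ⟨C2, hC2, hP⟩ := hPLB
  refine ⟨C2 * (2 * (C1 * 3 ^ 8) + 2) + 2, by positivity, ?_⟩
  intro Q _ χ hχ Z lam h ω T u hZ hZD' hlam1 hlam2 hQlam hh hω hω4 hωlam hωZ hT hzf hu1 hu2 hu3 ξ
  have hZ0 : 0 < Z := by linarith
  have hZ1 : 1 ≤ Z := by linarith
  have hh0 : 0 < h := by rw [hh]; exact Real.exp_pos _
  have hsq1 : 1 ≤ √Z := by rw [Real.one_le_sqrt]; linarith
  have hlam0 : 1 ≤ lam := hsq1.trans hlam1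
  have hZD0 : 0 < Z ^ D := by positivity
  obtain ⟨R, hR⟩ : ∃ R, R = Z ^ (D + 90) := ⟨_, rfl⟩
  have hR0 : 0 < R := by rw [hR]; positivity
  have hR1 : 1 ≤ R := by rw [hR]; exact one_le_pow₀ hZ1
  have hZDR : Z ^ (D + 1) ≤ R := by rw [hR]; exact pow_le_pow_right₀ hZ1 (by omega)
  rcases le_or_gt |ξ| (Z ^ (D + 1) / h) with hξ | hξ
  · have hpi := Real.pi_lt_d2
    have hpi0 := Real.pi_pos
    have e4 : 1 ≤ Real.exp lam := Real.one_le_exp (by linarith)
    have e11 : |2 * π * ξ| + R + 3 ≤ 11 * R * Real.exp lam := by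
      have e2 : |2 * π * ξ| ≤ 7 * (R * Real.exp lam) := by
        rw [abs_mul, abs_of_pos (by positivity : 0 < 2 * π)]
        have e3 : Z ^ (D + 1) / h = Z ^ (D + 1) * Real.exp lam := by
          rw [hh, Real.exp_neg]; field_simp
        rw [e3] at hξ
        have e5 : |ξ| ≤ R * Real.exp lam := hξ.trans (mul_le_mul_of_nonneg_right hZDR (by positivity))
        have : 0 ≤ |ξ| := abs_nonneg _
        exact mul_le_mul (by linarith only [hpi]) e5 this (by norm_num)
      have e5 : R ≤ R * Real.exp lam := le_mul_of_one_le_right hR0.le e4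
      linarith
    have e12 : 11 * R ≤ Real.exp lam := by
      have e3 : 11 * R ≤ Real.exp (√Z) := by
        rw [← hR, Real.exp_neg, ← div_eq_mul_inv, ← mul_div_assoc, div_le_one (Real.exp_pos _)] at hZD'
        exact hZD'
      exact e3.trans (Real.exp_le_exp.2 hlam1)
    have e13 : |2 * π * ξ| + R + 3 ≤ Real.exp (2 * lam) := by
      refine e11.trans ?_
      calc 11 * R * Real.exp lam ≤ Real.exp lam * Real.exp lam := by gcongr
        _ = Real.exp (2 * lam) := by rw [← Real.exp_add]; congr 1; ring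
    have e14 : |2 * π * ξ| + R ≤ T - 2 := by
      have : Real.exp (2 * lam) ≤ Real.exp (3 * lam) := Real.exp_le_exp.2 (by linarith)
      linarith
    obtain ⟨G, hG1, hG2⟩ := hG Q χ hχ ω T hω hω4 hzf
    have hlZ : 1 ≤ Real.log Z := by
      rw [Real.le_log_iff_exp_le hZ0]
      linarith [Real.exp_one_lt_d9]
    -- the bound of `G`
    have hB : ∀ s : ℂ, 1 - ω / 4 ≤ s.re → s.re ≤ 2 → |s.im| ≤ |2 * π * ξ| + R →
        DifferentiableAt ℂ G s ∧ ‖G s‖ ≤ C1 * (3 * Z ^ 5) ^ 8 := by
      intro s h1 h2 h3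
      obtain ⟨k1, k2⟩ := hG2 s h1 h2 (by linarith)
      refine ⟨k1, k2.trans ?_⟩
      have hl : lq Q s.im ≤ 3 * lam := by
        have e3 : Real.log (|s.im| + 3) ≤ 2 * lam := by
          rw [Real.log_le_iff_le_exp (by positivity)]
          linarith
        unfold lq ell
        linarith
      have hl0 : 1 ≤ lq Q s.im := one_le_lq _ _
      have hexp : Real.exp (ω * lq Q s.im) ≤ Z ^ 3 := by
        have e1 : ω * lq Q s.im ≤ 3 * Real.log Z := by
          calc ω * lq Q s.im ≤ ω * (3 * lam) := mul_le_mul_of_nonneg_left hl hω.le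
            _ = 3 * (ω * lam) := by ring
            _ ≤ 3 * Real.log Z := by linarith
        calc Real.exp (ω * lq Q s.im) ≤ Real.exp (3 * Real.log Z) := Real.exp_le_exp.2 e1
          _ = Z ^ 3 := by
            have : (3 : ℝ) * Real.log Z = ((3 : ℕ) : ℝ) * Real.log Z := by norm_num
            rw [this, Real.exp_nat_mul, Real.exp_log hZ0]
      have hω' : 1 / ω ≤ Z := by
        rw [div_le_iff₀ hω]
        linarith
      have hq : lq Q s.im * Real.exp (ω * lq Q s.im) / ω ≤ 3 * Z ^ 5 := by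
        calc lq Q s.im * Real.exp (ω * lq Q s.im) / ω =
              lq Q s.im * Real.exp (ω * lq Q s.im) * (1 / ω) := by ring
          _ ≤ (3 * Z) * Z ^ 3 * Z := by
              apply mul_le_mul _ hω' (by positivity) (by positivity)
              apply mul_le_mul _ hexp (by positivity) (by positivity)
              linarith
          _ = _ := by ring
      have hq0 : 0 ≤ lq Q s.im * Real.exp (ω * lq Q s.im) / ω := by positivity
      apply mul_le_mul_of_nonneg_left _ (by linarith)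
      exact pow_le_pow_left₀ hq0 hq 8
    have h1 := hP (xl χ) G (ω / 4) (C1 * (3 * Z ^ 5) ^ 8) (|2 * π * ξ| + R) u (2 * π * ξ) R (xl_le χ)
      (by linarith) (by linarith) (by positivity) hu1 hR1 le_rfl hG1 hB
    have hexp : Real.exp (-(ω / 4 * u)) ≤ 1 / R := by
      have e2 : 1 / R = Real.exp (-(((D + 90 : ℕ) : ℝ) * Real.log Z)) := by
        rw [Real.exp_neg, Real.exp_nat_mul, Real.exp_log hZ0, one_div, hR]
      rw [e2]
      apply Real.exp_le_exp.2
      push_cast
      linarith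
    have hRR : 1 / R ^ 2 ≤ 1 / R := by
      apply one_div_le_one_div_of_le hR0
      rw [sq]
      exact le_mul_of_one_le_left hR0.le hR1
    have hRZ : Z ^ 40 / R ≤ 1 / Z ^ D := by
      rw [div_le_div_iff₀ hR0 hZD0, one_mul, hR, ← pow_add]
      exact pow_le_pow_right₀ hZ1 (by omega)
    have hPG : ‖PG (xl χ) u (2 * π * ξ)‖ ≤ C2 * (2 * (C1 * 3 ^ 8) + 2) * (1 / Z ^ D) := by
      have f1 : C1 * (3 * Z ^ 5) ^ 8 = C1 * 3 ^ 8 * Z ^ 40 := by ring
      have f2 : u / R ≤ 2 * Z ^ 40 / R := by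
        apply div_le_div_of_nonneg_right _ hR0.le
        have f3 : Z ≤ Z ^ 40 := le_self_pow₀ hZ1 (by norm_num)
        linarith
      have f4 : C1 * (3 * Z ^ 5) ^ 8 * (Real.exp (-(ω / 4 * u)) + 1 / R ^ 2) ≤
          C1 * 3 ^ 8 * Z ^ 40 * (1 / R + 1 / R) := by
        rw [f1]
        exact mul_le_mul_of_nonneg_left (add_le_add hexp hRR) (by positivity)
      calc ‖PG (xl χ) u (2 * π * ξ)‖ ≤ _ := h1
        _ ≤ C2 * (C1 * 3 ^ 8 * Z ^ 40 * (1 / R + 1 / R) + 2 * Z ^ 40 / R) := by
            apply mul_le_mul_of_nonneg_left _ hC2.le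
            linarith
        _ = C2 * (2 * (C1 * 3 ^ 8) + 2) * (Z ^ 40 / R) := by ring
        _ ≤ _ := by
            apply mul_le_mul_of_nonneg_left hRZ (by positivity)
    have h3 := norm_four_box_le_one hh0 ξ
    calc ‖PG (xl χ) u (2 * π * ξ)‖ * ‖𝓕 (boxC h) ξ‖ ≤
          (C2 * (2 * (C1 * 3 ^ 8) + 2) * (1 / Z ^ D)) * 1 := by
          apply mul_le_mul hPG h3 (norm_nonneg _) (by positivity)
      _ ≤ (C2 * (2 * (C1 * 3 ^ 8) + 2) + 2) / Z ^ D := by
          rw [mul_one, mul_one_div]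
          apply div_le_div_of_nonneg_right _ hZD0.le
          linarith
  · have hξ0 : ξ ≠ 0 := by
      intro h0
      rw [h0, abs_zero] at hξ
      have : 0 < Z ^ (D + 1) / h := by positivity
      linarith
    have h1 := norm_four_box_le hh0 hξ0
    have h2 : 1 / (h * |ξ|) ≤ 1 / Z ^ (D + 1) := by
      apply one_div_le_one_div_of_le (by positivity)
      rw [div_lt_iff₀ hh0] at hξ
      linarith
    have h3 := PG_triv (xl_le χ) hu1 (2 * π * ξ)
    have h4 : u + 2 ≤ 2 * Z := by linarith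
    calc ‖PG (xl χ) u (2 * π * ξ)‖ * ‖𝓕 (boxC h) ξ‖ ≤ (2 * Z) * (1 / Z ^ (D + 1)) := by
          apply mul_le_mul (h3.trans h4) (h1.trans h2) (norm_nonneg _) (by positivity)
      _ = 2 / Z ^ D := by
          rw [pow_succ]
          field_simp
      _ ≤ _ := by
          apply div_le_div_of_nonneg_right _ hZD0.le
          have : 0 < C2 * (2 * (C1 * 3 ^ 8) + 2) := by positivity
          linarith

end Pool.Agent.Q145.HC
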